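import Pool.Agent.N912.LB.Stm
import Pool.Agent.N912.HL.H4
import Pool.Agent.Y772.DK.Cc

/-!
# Project LB (helper912), LB7: Halasz's theorem for the ideals, part 1 (helper712)
-/

set_option autoImplicit false
set_option linter.unusedSectionVars false

namespace Pool.Agent.N712.LB

open NumberField Complex Filter Topology Ideal
open ArithmeticFunction (vonMangoldt)
open Pool.Agent.Y773 (VM cc)
open Pool.Agent.Y773.G (IsModChar sg)
open Pool.Agent.Y772.DK (NN NN_finite cc_mul sum_VM sum_VM_le finite_dvd norm_cc_le VM_nonneg VM_pow)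
open Pool.Agent.N912.HL (Rm Hs gg NP pt pt_re gg_nonneg norm_u np_summ)
open Pool.Agent.N912.LB (CMI rI FarI S_HA S_HM)
open Pool.Agent.Y122.LT (al)

/-- the ideals of norm `n` -/
noncomputable def Sn (K : Type) [Field K] [NumberField K] (n : ℕ) : Finset (Ideal (𝓞 K)) :=
  (NN_finite (K := K) n).toFinset

variable {K : Type} [Field K] [NumberField K]

lemma mem_Sn {n : ℕ} {𝔞 : Ideal (𝓞 K)} : 𝔞 ∈ Sn K n ↔ absNorm 𝔞 = n := by
  unfold Sn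
  rw [Set.Finite.mem_toFinset]
  rfl

/-- the coefficients of the Dirichlet series -/
noncomputable def an (η : Ideal (𝓞 K) →*₀ ℂ) (n : ℕ) : ℂ := ∑ 𝔞 ∈ Sn K n, η 𝔞

/-- the coefficients of the logarithmic derivative -/
noncomputable def bk (η : Ideal (𝓞 K) →*₀ ℂ) (n : ℕ) : ℂ := ((vonMangoldt n : ℝ) : ℂ) * cc η n

lemma bk_eq (η : Ideal (𝓞 K) →*₀ ℂ) (n : ℕ) :
    bk η n = ∑ 𝔞 ∈ Sn K n, (VM 𝔞 : ℂ) * η 𝔞 := by
  unfold bk
  rw [mul_comm, cc_mul, finsum_mem_eq_finite_toFinset_sum _ (NN_finite n)]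
  rfl

open scoped Classical in
lemma Sn_mul (η : Ideal (𝓞 K) →*₀ ℂ) {n : ℕ} (hn : n ≠ 0) {𝔡 : Ideal (𝓞 K)}
    (hd : absNorm 𝔡 ∣ n) :
    ∑ 𝔞 ∈ (Sn K n).filter (fun 𝔞 => 𝔡 ∣ 𝔞), η 𝔞 = η 𝔡 * an η (n / absNorm 𝔡) := by
  have hN : absNorm 𝔡 ≠ 0 := by
    intro h
    rw [h, zero_dvd_iff] at hd
    exact hn hd
  have hd0 : 𝔡 ≠ 0 := by
    rintro rfl
    exact hN (by rw [Ideal.zero_eq_bot, absNorm_bot])
  have himg : (Sn K n).filter (fun 𝔞 => 𝔡 ∣ 𝔞) =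
      (Sn K (n / absNorm 𝔡)).image (fun 𝔠 => 𝔡 * 𝔠) := by
    ext 𝔞
    simp only [Finset.mem_filter, Finset.mem_image, mem_Sn]
    constructor
    · rintro ⟨h1, 𝔠, rfl⟩
      refine ⟨𝔠, ?_, rfl⟩
      rw [← h1, map_mul, Nat.mul_div_cancel_left _ (Nat.pos_of_ne_zero hN)]
    · rintro ⟨𝔠, h1, rfl⟩
      refine ⟨?_, dvd_mul_right _ _⟩
      rw [map_mul, h1, Nat.mul_div_cancel' hd]
  rw [himg, Finset.sum_image (fun a _ b _ h => mul_left_cancel₀ hd0 h)]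
  unfold an
  rw [Finset.mul_sum]
  exact Finset.sum_congr rfl fun 𝔠 _ => map_mul η 𝔡 𝔠

open scoped Classical in
/-- the convolution identity (the proof is that of helper864 in `N864.RC.Mean`) -/
lemma conv (η : Ideal (𝓞 K) →*₀ ℂ) {n : ℕ} (hn : n ≠ 0) :
    an η n * (Real.log n : ℂ) = ∑ d ∈ n.divisors, bk η d * an η (n / d) := by
  set U : Finset (Ideal (𝓞 K)) := n.divisors.biUnion (Sn K) with hU
  have hlog : ∀ 𝔞 ∈ Sn K n, (Real.log n : ℂ) = ∑ 𝔡 ∈ U.filter (fun 𝔡 => 𝔡 ∣ 𝔞), (VM 𝔡 : ℂ) := by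
    intro 𝔞 h𝔞
    rw [mem_Sn] at h𝔞
    have h0 : 𝔞 ≠ 0 := by
      rintro rfl
      exact hn (by rw [← h𝔞, Ideal.zero_eq_bot, absNorm_bot])
    have h1 := sum_VM 𝔞 h0
    rw [h𝔞] at h1
    have h2 : {𝔡 : Ideal (𝓞 K) | 𝔡 ∣ 𝔞} = ↑(U.filter (fun 𝔡 => 𝔡 ∣ 𝔞)) := by
      ext 𝔡
      simp only [Set.mem_ofPred_eq, Finset.coe_filter, hU, Finset.mem_biUnion, mem_Sn,
        Nat.mem_divisors]
      constructor
      · intro h3
        refine ⟨⟨absNorm 𝔡, ⟨?_, hn⟩, rfl⟩, h3⟩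
        rw [← h𝔞]
        exact map_dvd absNorm h3
      · rintro ⟨-, h3⟩
        exact h3
    rw [← h1, h2, finsum_mem_coe_finset, Complex.ofReal_sum]
  have e1 : an η n * (Real.log n : ℂ) =
      ∑ 𝔞 ∈ Sn K n, ∑ 𝔡 ∈ U, if 𝔡 ∣ 𝔞 then η 𝔞 * (VM 𝔡 : ℂ) else 0 := by
    unfold an
    rw [Finset.sum_mul]
    refine Finset.sum_congr rfl fun 𝔞 h𝔞 => ?_
    rw [hlog 𝔞 h𝔞, Finset.mul_sum, Finset.sum_filter]
  have e2 : ∀ 𝔡 ∈ U, (∑ 𝔞 ∈ Sn K n, if 𝔡 ∣ 𝔞 then η 𝔞 * (VM 𝔡 : ℂ) else 0) =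
      (VM 𝔡 : ℂ) * η 𝔡 * an η (n / absNorm 𝔡) := by
    intro 𝔡 h𝔡
    rw [hU, Finset.mem_biUnion] at h𝔡
    obtain ⟨d, hd, h2⟩ := h𝔡
    rw [mem_Sn] at h2
    have h3 : absNorm 𝔡 ∣ n := by
      rw [h2]
      exact (Nat.mem_divisors.1 hd).1
    rw [← Finset.sum_filter, ← Finset.sum_mul, Sn_mul η hn h3]
    ring
  rw [e1, Finset.sum_comm, Finset.sum_congr rfl e2, hU, Finset.sum_biUnion]
  · refine Finset.sum_congr rfl fun d _ => ?_
    rw [bk_eq, Finset.sum_mul]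
    refine Finset.sum_congr rfl fun 𝔡 h𝔡 => ?_
    rw [mem_Sn] at h𝔡
    rw [h𝔡]
  · intro a _ b _ hab
    rw [Function.onFun, Finset.disjoint_left]
    intro 𝔞 h1 h2
    rw [mem_Sn] at h1 h2
    exact hab (h1.symm.trans h2)

lemma rI_card {n : ℕ} (hn : n ≠ 0) : rI K n = ((Sn K n).card : ℝ) := by
  unfold rI Sn
  rw [if_neg hn]
  congr 1
  exact Set.ncard_eq_toFinset_card _ (NN_finite n)

lemma rI_zero : rI K 0 = 0 := if_pos rfl

/-- the sequence of a bounded multiplicative function -/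
theorem hs_th (hfin : Module.finrank ℚ K = 2) (θ : Ideal (𝓞 K) →*₀ ℂ) (hθ : ∀ 𝔞, ‖θ 𝔞‖ ≤ 1) :
    Hs (rI K) (an θ) (bk θ) := by
  have h0 : an θ 0 = 0 := by
    unfold an
    refine Finset.sum_eq_zero fun 𝔞 h => ?_
    rw [mem_Sn, absNorm_eq_zero_iff] at h
    rw [h, ← Ideal.zero_eq_bot, map_zero]
  refine ⟨h0, ?_, fun n => ?_, fun n => ?_, ?_⟩
  · have h1 : Sn K 1 = {1} := by
      ext 𝔞
      rw [mem_Sn, Finset.mem_singleton, absNorm_eq_one_iff, Ideal.one_eq_top]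
    unfold an
    rw [h1, Finset.sum_singleton, map_one]
  · rcases Nat.eq_zero_or_pos n with rfl | hn
    · rw [h0, norm_zero, rI_zero]
    · rw [rI_card hn.ne']
      unfold an
      refine (norm_sum_le _ _).trans ((Finset.sum_le_sum fun 𝔞 _ => hθ 𝔞).trans ?_)
      simp
  · unfold bk
    rw [norm_mul, Complex.norm_real, Real.norm_of_nonneg ArithmeticFunction.vonMangoldt_nonneg,
      mul_comm]
    have h1 := norm_cc_le θ hθ n
    rw [hfin] at h1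
    exact mul_le_mul_of_nonneg_right (by exact_mod_cast h1) ArithmeticFunction.vonMangoldt_nonneg
  · funext n
    rw [LSeries.convolution_def]
    show an θ n * (Real.log n : ℂ) = ∑ p ∈ n.divisorsAntidiagonal, an θ p.1 * bk θ p.2
    rcases Nat.eq_zero_or_pos n with rfl | hn
    · simp
    rw [Nat.sum_divisorsAntidiagonal' (f := fun u d => an θ u * bk θ d), conv θ hn.ne']
    exact Finset.sum_congr rfl fun d _ => mul_comm _ _

open scoped Classical in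
/-- the trivial function -/
noncomputable def t0 (K : Type) [Field K] [NumberField K] : Ideal (𝓞 K) →*₀ ℂ where
  toFun 𝔞 := if 𝔞 = 0 then 0 else 1
  map_zero' := if_pos rfl
  map_one' := if_neg one_ne_zero
  map_mul' 𝔞 𝔟 := by
    by_cases h1 : 𝔞 = 0
    · simp [h1]
    by_cases h2 : 𝔟 = 0
    · simp [h2]
    rw [if_neg h1, if_neg h2, if_neg (mul_ne_zero h1 h2), one_mul]

open scoped Classical in
lemma t0_apply (𝔞 : Ideal (𝓞 K)) : t0 K 𝔞 = if 𝔞 = 0 then 0 else 1 := rfl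

lemma an_t0 (n : ℕ) : an (t0 K) n = (rI K n : ℂ) := by
  classical
  rcases Nat.eq_zero_or_pos n with rfl | hn
  · rw [rI_zero]
    unfold an
    rw [Complex.ofReal_zero]
    refine Finset.sum_eq_zero fun 𝔞 h => ?_
    rw [mem_Sn, absNorm_eq_zero_iff] at h
    rw [h, ← Ideal.zero_eq_bot, map_zero]
  · rw [rI_card hn.ne']
    unfold an
    have h1 : ∀ 𝔞 ∈ Sn K n, t0 K 𝔞 = 1 := by
      intro 𝔞 h
      rw [mem_Sn] at h
      rw [t0_apply, if_neg]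
      rintro rfl
      rw [Ideal.zero_eq_bot, absNorm_bot] at h
      omega
    rw [Finset.sum_congr rfl h1]
    simp

theorem hs_one (hfin : Module.finrank ℚ K = 2) :
    ∃ L₁ : ℕ → ℂ, Hs (rI K) (fun n => (rI K n : ℂ)) L₁ := by
  have h := hs_th hfin (t0 K) (fun 𝔞 => by
    classical
    rw [t0_apply]
    split_ifs <;> simp)
  refine ⟨bk (t0 K), ?_⟩
  rw [show (fun n => (rI K n : ℂ)) = an (t0 K) from funext fun n => (an_t0 n).symm]
  exact h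

/-- ray class characters have finite order -/
theorem order {𝔪 : Ideal (𝓞 K)} {η : Ideal (𝓞 K) →*₀ ℂ} (h : IsModChar 𝔪 (fun _ => 0) η) :
    ∃ N₁ : ℕ, 1 ≤ N₁ ∧ ∀ 𝔞, IsCoprime 𝔞 𝔪 → η 𝔞 ^ N₁ = 1 := by
  have hfin : Finite (𝓞 K ⧸ 𝔪) := Ideal.finiteQuotientOfFreeOfNeBot 𝔪 h.ne_bot
  have hu : Finite (𝓞 K ⧸ 𝔪)ˣ := inferInstance
  refine ⟨Fintype.card (ClassGroup (𝓞 K)) * Nat.card (𝓞 K ⧸ 𝔪)ˣ,
    Nat.mul_pos Fintype.card_pos Nat.card_pos, fun 𝔞 h𝔞 => ?_⟩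
  have h0 : 𝔞 ≠ ⊥ := by
    rintro rfl
    apply h.ne_top
    rw [Ideal.isCoprime_iff_sup_eq, bot_sup_eq] at h𝔞
    exact h𝔞
  have hnz : 𝔞 ∈ nonZeroDivisors (Ideal (𝓞 K)) := mem_nonZeroDivisors_iff_ne_zero.2 h0
  obtain ⟨c, hc⟩ : ∃ c : ℕ, c = Fintype.card (ClassGroup (𝓞 K)) := ⟨_, rfl⟩
  rw [← hc]
  have h1 : ClassGroup.mk0 (⟨𝔞, hnz⟩ ^ c : nonZeroDivisors (Ideal (𝓞 K))) = 1 := by
    rw [map_pow, hc, pow_card_eq_one]
  have h2 : ((⟨𝔞, hnz⟩ ^ c : nonZeroDivisors (Ideal (𝓞 K))) : Ideal (𝓞 K)).IsPrincipal := by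
    rw [← ClassGroup.mk0_eq_one_iff (⟨𝔞, hnz⟩ ^ c : nonZeroDivisors (Ideal (𝓞 K))).2]
    exact h1
  rw [SubmonoidClass.coe_pow] at h2
  obtain ⟨x, hx⟩ := h2.principal
  have hx' : 𝔞 ^ c = Ideal.span {x} := hx
  have hx0 : x ≠ 0 := by
    rintro rfl
    have h3 : 𝔞 ^ c = 0 := by rw [hx', Ideal.span_singleton_eq_bot.2 rfl, Ideal.zero_eq_bot]
    have hc0 : c ≠ 0 := by
      rw [hc]
      exact Fintype.card_ne_zero
    exact h0 ((pow_eq_zero_iff hc0).1 h3)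
  have hcop : IsCoprime (Ideal.span {x}) 𝔪 := by
    rw [← hx']
    exact h𝔞.pow_left
  have hunit : IsUnit (Ideal.Quotient.mk 𝔪 x) := by
    rw [Ideal.isCoprime_iff_exists] at hcop
    obtain ⟨i, hi, j, hj, hij⟩ := hcop
    obtain ⟨a, rfl⟩ := Ideal.mem_span_singleton'.1 hi
    refine IsUnit.of_mul_eq_one (Ideal.Quotient.mk 𝔪 a) ?_
    rw [← map_mul, ← map_one (Ideal.Quotient.mk 𝔪), Ideal.Quotient.eq]
    have : x * a - 1 = -j := by rw [← hij]; ring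
    rw [this]
    exact neg_mem hj
  obtain ⟨u, hu'⟩ := hunit
  have h4 : x ^ Nat.card (𝓞 K ⧸ 𝔪)ˣ - 1 ∈ 𝔪 := by
    rw [← Ideal.Quotient.eq, map_pow, ← hu', ← Units.val_pow_eq_pow_val, pow_card_eq_one',
      Units.val_one, map_one]
  have h5 := h.sig _ (pow_ne_zero _ hx0) h4
  have h6 : Ideal.span {x ^ Nat.card (𝓞 K ⧸ 𝔪)ˣ} = (𝔞 ^ c) ^ Nat.card (𝓞 K ⧸ 𝔪)ˣ := by
    rw [hx', Ideal.span_singleton_pow]
  rw [h6, map_pow, map_pow, ← pow_mul] at h5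
  rw [h5]
  unfold sg
  exact Finset.prod_eq_one fun w _ => pow_zero _

/-- primes of large norm do not divide the modulus -/
theorem cop_of_prime {𝔪 : Ideal (𝓞 K)} {p : ℕ} (hp : p.Prime) (hpM : ¬ p ∣ absNorm 𝔪)
    {𝔭 : Ideal (𝓞 K)} (h : 𝔭 ∈ Sn K p) : IsCoprime 𝔭 𝔪 := by
  rw [mem_Sn] at h
  have h4 : 𝔭.IsPrime := isPrime_of_irreducible_absNorm (by rw [h]; exact hp)
  have h5 : 𝔭 ≠ ⊥ := by
    rintro rfl
    rw [absNorm_bot] at h
    exact hp.ne_zero h.symm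
  have hmax : 𝔭.IsMaximal := h4.isMaximal h5
  rw [Ideal.isCoprime_iff_sup_eq]
  by_contra hne
  have h6 : 𝔪 ≤ 𝔭 := by
    have h7 := hmax.eq_of_le hne le_sup_left
    rw [h7]
    exact le_sup_right
  apply hpM
  rw [← h]
  exact absNorm_dvd_absNorm_of_le h6

/-- gap for the roots of unity -/
theorem root_gap (N : ℕ) (hN : 1 ≤ N) : ∃ c : ℝ, 0 < c ∧ ∀ u : ℂ, u ^ N = 1 → u ≠ 1 →
    c ≤ 1 - u.re := by
  have hfin : {u : ℂ | u ^ N = 1 ∧ u ≠ 1}.Finite := by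
    refine Set.Finite.subset ((Polynomial.nthRoots N (1 : ℂ)).toFinset.finite_toSet) ?_
    rintro u ⟨hu, -⟩
    rw [Finset.mem_coe, Multiset.mem_toFinset, Polynomial.mem_nthRoots (by omega)]
    exact hu
  have hpos : ∀ u : ℂ, u ^ N = 1 → u ≠ 1 → 0 < 1 - u.re := by
    intro u hu hu1
    have h1 : ‖u‖ = 1 := Complex.norm_eq_one_of_pow_eq_one hu (by omega)
    have h2 : u.re ≤ 1 := by rw [← h1]; exact Complex.re_le_norm u
    rcases h2.lt_or_eq with h3 | h3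
    · linarith
    · exfalso
      apply hu1
      have h4 := Complex.normSq_eq_norm_sq u
      rw [Complex.normSq_apply, h1, h3] at h4
      have h5 : u.im = 0 := by nlinarith
      exact Complex.ext (by rw [h3, Complex.one_re]) (by rw [h5, Complex.one_im])
  rcases Set.eq_empty_or_nonempty {u : ℂ | u ^ N = 1 ∧ u ≠ 1} with he | hne
  · refine ⟨1, one_pos, fun u hu hu1 => ?_⟩
    have : u ∈ {u : ℂ | u ^ N = 1 ∧ u ≠ 1} := ⟨hu, hu1⟩
    rw [he] at this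
    exact this.elim
  · obtain ⟨v, hv, hmin⟩ := hfin.exists_minimalFor (fun u : ℂ => 1 - u.re) _ hne
    refine ⟨1 - v.re, hpos v hv.1 hv.2, fun u hu hu1 => ?_⟩
    rcases le_total (1 - v.re) (1 - u.re) with h | h
    · exact h
    · exact hmin ⟨hu, hu1⟩ h

end Pool.Agent.N712.LB
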