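import Pool.Agent.N912.HL.H4

/-!
# Project LB (helper912), LB7: Halasz's theorem for the ideals, part 2 (helper712): no poles on the
line 1 except at 1
-/

set_option autoImplicit false

namespace Pool.Agent.N712.LB

open Filter Topology Finset
open Pool.Agent.N912.HL (Rm Hs gg NP pt pt_re)

theorem bound_f {r : ℕ → ℝ} {ρ C : ℝ} (hr : Rm r ρ C) : ∃ B : ℝ, ∀ s : ℂ, 1 < s.re →
    ‖LSeries (fun n => (r n : ℂ) - (ρ : ℂ)) s‖ ≤ ‖s‖ * B := by
  have hsum : ∀ n : ℕ, ‖∑ k ∈ Icc 1 n, ((r k : ℂ) - (ρ : ℂ))‖ ≤ C * Real.sqrt n := by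
    intro n
    have h1 : ∑ k ∈ Icc 1 n, ((r k : ℂ) - (ρ : ℂ)) = ((∑ k ∈ Icc 1 n, r k - ρ * n : ℝ) : ℂ) := by
      rw [Finset.sum_sub_distrib, Finset.sum_const, Nat.card_Icc, nsmul_eq_mul]
      push_cast
      simp [mul_comm]
    rw [h1, Complex.norm_real, Real.norm_eq_abs]
    exact hr.cnt n
  refine ⟨∫ t in Set.Ioi (1 : ℝ), C * t ^ (-(3 / 2) : ℝ), fun s hs => ?_⟩
  have hS : LSeriesSummable (fun n => (r n : ℂ) - (ρ : ℂ)) s := by
    have h1 := hr.summ hs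
    have h2 : LSeriesSummable ((ρ : ℂ) • (1 : ℕ → ℂ)) s := (LSeriesSummable_one_iff.2 hs).smul _
    have h3 : ((fun n => (r n : ℂ)) - (ρ : ℂ) • (1 : ℕ → ℂ)) = fun n => (r n : ℂ) - (ρ : ℂ) := by
      funext n
      simp
    rw [← h3]
    exact h1.sub h2
  have hC : 0 < C := lt_of_lt_of_le one_pos hr.C1
  have hO : (fun n : ℕ => ∑ k ∈ Icc 1 n, ((r k : ℂ) - (ρ : ℂ))) =O[atTop]
      fun n => (n : ℝ) ^ (1 : ℝ) := by
    refine Asymptotics.IsBigO.of_bound C (Eventually.of_forall fun n => ?_)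
    refine (hsum n).trans (mul_le_mul_of_nonneg_left ?_ hC.le)
    rw [Real.rpow_one, Real.norm_of_nonneg (Nat.cast_nonneg _)]
    rcases Nat.eq_zero_or_pos n with h | h
    · subst h; simp
    · have h4 : (1 : ℝ) ≤ n := by exact_mod_cast h
      rw [Real.sqrt_le_left (by linarith)]
      nlinarith
  rw [LSeries_eq_mul_integral _ zero_le_one hs hS hO, norm_mul]
  refine mul_le_mul_of_nonneg_left ?_ (norm_nonneg _)
  refine MeasureTheory.norm_integral_le_of_norm_le ?_ ?_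
  · exact (integrableOn_Ioi_rpow_of_lt (by norm_num) one_pos).const_mul C
  · refine (MeasureTheory.ae_restrict_iff' measurableSet_Ioi).2 (Eventually.of_forall fun t ht => ?_)
    have ht1 : (1 : ℝ) < t := ht
    have ht0 : 0 < t := by linarith
    rw [norm_mul]
    have h1 : ‖∑ k ∈ Icc 1 ⌊t⌋₊, ((r k : ℂ) - (ρ : ℂ))‖ ≤ C * t ^ (1 / 2 : ℝ) := by
      refine (hsum _).trans (mul_le_mul_of_nonneg_left ?_ hC.le)
      rw [Real.sqrt_eq_rpow]
      exact Real.rpow_le_rpow (Nat.cast_nonneg _) (Nat.floor_le ht0.le) (by norm_num)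
    have h2 : ‖(t : ℂ) ^ (-(s + 1))‖ ≤ t ^ (-2 : ℝ) := by
      rw [Complex.norm_cpow_eq_rpow_re_of_pos ht0]
      refine Real.rpow_le_rpow_of_exponent_le ht1.le ?_
      simp only [Complex.neg_re, Complex.add_re, Complex.one_re]
      linarith
    refine (mul_le_mul h1 h2 (norm_nonneg _) (by positivity)).trans (le_of_eq ?_)
    rw [mul_assoc, ← Real.rpow_add ht0]
    norm_num

theorem lim_r {r : ℕ → ℝ} {ρ C : ℝ} (hr : Rm r ρ C) {y : ℝ} (hy : y ≠ 0) :
    Tendsto (fun δ : ℝ => δ * ‖LSeries (fun n => (r n : ℂ)) (pt δ y)‖) (𝓝[>] 0) (𝓝 0) := by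
  obtain ⟨B, hB⟩ := bound_f hr
  have hpt : Tendsto (fun δ : ℝ => pt δ y) (𝓝[>] 0) (𝓝 (pt 0 y)) := by
    have h2 : Continuous (fun δ : ℝ => pt δ y) := by unfold pt; fun_prop
    exact (h2.tendsto 0).mono_left nhdsWithin_le_nhds
  have hne : pt 0 y ≠ 1 := by
    intro h
    apply hy
    have := congrArg Complex.im h
    simpa [pt] using this
  have hz : Tendsto (fun δ : ℝ => riemannZeta (pt δ y)) (𝓝[>] 0) (𝓝 (riemannZeta (pt 0 y))) :=
    (differentiableAt_riemannZeta hne).continuousAt.tendsto.comp hpt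
  have hid : Tendsto (fun δ : ℝ => δ) (𝓝[>] 0) (𝓝 0) := tendsto_id.mono_left nhdsWithin_le_nhds
  have hlim : Tendsto (fun δ : ℝ => δ * (‖pt δ y‖ * B + |ρ| * ‖riemannZeta (pt δ y)‖)) (𝓝[>] 0)
      (𝓝 (0 * (‖pt 0 y‖ * B + |ρ| * ‖riemannZeta (pt 0 y)‖))) :=
    hid.mul ((hpt.norm.mul_const B).add (hz.norm.const_mul |ρ|))
  rw [zero_mul] at hlim
  refine squeeze_zero' ?_ ?_ hlim
  · filter_upwards [self_mem_nhdsWithin] with δ hδ
    have hδ' : 0 < δ := hδ
    positivity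
  · filter_upwards [self_mem_nhdsWithin] with δ hδ
    have hδ' : 0 < δ := hδ
    have hs : 1 < (pt δ y).re := by rw [pt_re]; linarith
    refine mul_le_mul_of_nonneg_left ?_ hδ'.le
    have h1 := hr.summ hs
    have h2 : LSeriesSummable ((ρ : ℂ) • (1 : ℕ → ℂ)) (pt δ y) :=
      (LSeriesSummable_one_iff.2 hs).smul _
    have h3 : LSeries (fun n => (r n : ℂ)) (pt δ y) =
        LSeries (fun n => (r n : ℂ) - (ρ : ℂ)) (pt δ y) + (ρ : ℂ) * riemannZeta (pt δ y) := by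
      have h4 := LSeries_sub h1 h2
      rw [LSeries_smul, LSeries_one_eq_riemannZeta hs] at h4
      have h5 : ((fun n => (r n : ℂ)) - (ρ : ℂ) • (1 : ℕ → ℂ)) = fun n => (r n : ℂ) - (ρ : ℂ) := by
        funext n
        simp
      rw [h5] at h4
      rw [h4, sub_add_cancel]
    rw [h3]
    refine (norm_add_le _ _).trans (add_le_add (hB _ hs) ?_)
    rw [norm_mul, Complex.norm_real, Real.norm_eq_abs]

end Pool.Agent.N712.LB
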