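import Pool.Agent.N712.LB.Hm1
import Pool.Agent.N712.LB.Hm2

/-!
# Project LB (helper912), LB7: Halasz's theorem for the ideals, part 3 (helper712)
-/

set_option autoImplicit false
set_option linter.unusedSectionVars false

namespace Pool.Agent.N712.LB

open NumberField Complex Filter Topology Ideal
open ArithmeticFunction (vonMangoldt)
open Pool.Agent.Y773 (VM cc)
open Pool.Agent.Y773.G (IsModChar sg)
open Pool.Agent.Y772.DK (NN NN_finite cc_mul sum_VM sum_VM_le VM_nonneg VM_pow)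
open Pool.Agent.N912.HL (Rm Hs gg NP pt pt_re gg_nonneg norm_u np_summ)
open Pool.Agent.N912.LB (CMI rI FarI S_HA S_HM)
open Pool.Agent.N912.RC (IX)

variable {K : Type} [Field K] [NumberField K]

/-! ### Powers (as in `N912.HL.H5`) -/

theorem norm_sub_sq {u : ℂ} (hu : ‖u‖ = 1) : ‖1 - u‖ ^ 2 = 2 * (1 - u.re) := by
  rw [← Complex.normSq_eq_norm_sq, Complex.normSq_apply]
  have h1 : u.re * u.re + u.im * u.im = 1 := by
    have := Complex.normSq_eq_norm_sq u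
    rw [Complex.normSq_apply, hu] at this
    linarith
  simp only [Complex.sub_re, Complex.one_re, Complex.sub_im, Complex.one_im]
  nlinarith

theorem pow_dist {u : ℂ} (hu : ‖u‖ = 1) (N : ℕ) : 1 - (u ^ N).re ≤ (N : ℝ) ^ 2 * (1 - u.re) := by
  have h1 : ‖1 - u ^ N‖ ≤ N * ‖1 - u‖ := by
    induction N with
    | zero => simp
    | succ N ih =>
      have h2 : 1 - u ^ (N + 1) = (1 - u ^ N) + u ^ N * (1 - u) := by ring
      rw [h2]
      refine (norm_add_le _ _).trans ?_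
      rw [norm_mul, norm_pow, hu, one_pow, one_mul]
      push_cast
      linarith
  have h2 : ‖u ^ N‖ = 1 := by rw [norm_pow, hu, one_pow]
  have h3 := pow_le_pow_left₀ (norm_nonneg _) h1 2
  rw [mul_pow, norm_sub_sq hu, norm_sub_sq h2] at h3
  linarith

/-- comparison of series over the primes outside a finite set -/
theorem summ_of_prime {g h : ℕ → ℝ} {M : ℕ} {B : ℝ} (hM : 1 ≤ M) (hg : ∀ n, 0 ≤ g n)
    (hz : ∀ n, ¬ n.Prime → g n = 0)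
    (hle : ∀ p : ℕ, p.Prime → ¬ p ∣ M → g p ≤ B * h p) (hh : Summable h) : Summable g := by
  have h1 : Summable (fun n => if n ∣ M then g n else 0) := by
    refine summable_of_hasFiniteSupport ((M.divisors.finite_toSet).subset ?_)
    intro n hn
    rw [Function.mem_support] at hn
    have : n ∣ M := by
      by_contra hc
      exact hn (if_neg hc)
    exact Finset.mem_coe.2 (Nat.mem_divisors.2 ⟨this, by omega⟩)
  have h2 : Summable (fun n => if n.Prime ∧ ¬ n ∣ M then g n else 0) := by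
    refine Summable.of_nonneg_of_le (fun n => ?_) (fun n => ?_) (hh.abs.mul_left |B|)
    · split_ifs
      · exact hg n
      · exact le_rfl
    · split_ifs with h3
      · refine (hle n h3.1 h3.2).trans ?_
        rw [← abs_mul]
        exact le_abs_self _
      · positivity
  refine (h1.add h2).congr fun n => ?_
  by_cases hp : n.Prime
  · by_cases hd : n ∣ M
    · rw [if_pos hd, if_neg (fun h => h.2 hd), add_zero]
    · rw [if_neg hd, if_pos ⟨hp, hd⟩, zero_add]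
  · simp [hz n hp, hp]

/-- the deficit at the prime `p` as a sum over the ideals of norm `p` -/
theorem deficit (θ : Ideal (𝓞 K) →*₀ ℂ) (y : ℝ) {p : ℕ} (hp : p.Prime) :
    gg (rI K) (an θ) 0 y p = (p : ℝ) ^ (-(1 : ℝ)) *
      ∑ 𝔭 ∈ Sn K p, (1 - (θ 𝔭 * (p : ℂ) ^ (-(y * Complex.I))).re) := by
  unfold gg
  rw [if_pos hp, add_zero, rI_card hp.ne_zero]
  congr 1
  rw [Finset.sum_sub_distrib, Finset.sum_const, nsmul_eq_mul, mul_one]
  congr 1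
  unfold an
  rw [Finset.sum_mul, Complex.re_sum]

/-- reduction to the trivial character -/
theorem gg_pow {θ : Ideal (𝓞 K) →*₀ ℂ} {N M : ℕ} (hN : 1 ≤ N)
    (hθ : ∀ p : ℕ, p.Prime → ¬ p ∣ M → ∀ 𝔭 ∈ Sn K p, θ 𝔭 ^ N = 1) (y : ℝ) {p : ℕ} (hp : p.Prime)
    (hpM : ¬ p ∣ M) :
    gg (rI K) (fun n => (rI K n : ℂ)) 0 (N * y) p ≤ (N : ℝ) ^ 2 * gg (rI K) (an θ) 0 y p := by
  have e : (fun n => (rI K n : ℂ)) = an (t0 K) := funext fun n => (an_t0 n).symm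
  rw [e, deficit _ _ hp, deficit _ _ hp]
  have h0 : (0 : ℝ) ≤ (p : ℝ) ^ (-(1 : ℝ)) := by positivity
  have h1 : ∑ 𝔭 ∈ Sn K p, (1 - (t0 K 𝔭 * (p : ℂ) ^ (-(((N * y : ℝ) : ℂ) * Complex.I))).re) ≤
      (N : ℝ) ^ 2 * ∑ 𝔭 ∈ Sn K p, (1 - (θ 𝔭 * (p : ℂ) ^ (-(y * Complex.I))).re) := by
    rw [Finset.mul_sum]
    refine Finset.sum_le_sum fun 𝔭 h𝔭 => ?_
    have h1 := hθ p hp hpM 𝔭 h𝔭
    have h2 : ‖θ 𝔭 * (p : ℂ) ^ (-(y * Complex.I))‖ = 1 := by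
      rw [norm_mul, norm_u hp.pos, Complex.norm_eq_one_of_pow_eq_one h1 (by omega), mul_one]
    have h3 := pow_dist h2 N
    rw [mul_pow, h1, ← Complex.cpow_nat_mul] at h3
    have h4 : ((N : ℕ) : ℂ) * -((y : ℂ) * Complex.I) = -(((N * y : ℝ) : ℂ) * Complex.I) := by
      push_cast; ring
    rw [h4] at h3
    have h5 : t0 K 𝔭 = 1 := by
      classical
      rw [t0_apply, if_neg]
      rintro rfl
      rw [map_zero, zero_pow (by omega)] at h1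
      exact zero_ne_one h1
    rw [h5]
    exact h3
  calc _ ≤ (p : ℝ) ^ (-(1 : ℝ)) * ((N : ℝ) ^ 2 *
      ∑ 𝔭 ∈ Sn K p, (1 - (θ 𝔭 * (p : ℂ) ^ (-(y * Complex.I))).re)) :=
        mul_le_mul_of_nonneg_left h1 h0
    _ = _ := by ring

/-- summability over the ideals by the norm -/
theorem summ_ideals (G : Ideal (𝓞 K) → ℝ) (hG : ∀ 𝔞, 0 ≤ G 𝔞)
    (h : Summable fun n : ℕ => ∑ 𝔞 ∈ Sn K n, G 𝔞) : Summable G := by
  have hfib : ∀ n : ℕ, Finite {𝔞 : Ideal (𝓞 K) // absNorm 𝔞 = n} := fun n =>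
    (NN_finite (K := K) n).to_subtype
  rw [← (Equiv.sigmaFiberEquiv (fun 𝔞 : Ideal (𝓞 K) => absNorm 𝔞)).summable_iff]
  refine (summable_sigma_of_nonneg (fun x => hG _)).2 ⟨fun n => ?_, h.congr fun n => ?_⟩
  · have := hfib n
    exact Summable.of_finite
  · have := hfib n
    have hft := Fintype.ofFinite {𝔞 : Ideal (𝓞 K) // absNorm 𝔞 = n}
    rw [tsum_fintype]
    have h1 : ∑ 𝔞 ∈ Sn K n, G 𝔞 = ∑ x : {𝔞 : Ideal (𝓞 K) // absNorm 𝔞 = n}, G x.1 :=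
      Finset.sum_subtype (Sn K n) (fun 𝔞 => mem_Sn) G
    rw [h1]
    rfl

/-- the number of the prime ideals of norm `n` -/
theorem card_primes (hfin : Module.finrank ℚ K = 2) (T : Ideal (𝓞 K) → Prop) [DecidablePred T]
    (hT : ∀ 𝔭, T 𝔭 → 𝔭.IsPrime ∧ 𝔭 ≠ ⊥) (n : ℕ) :
    (((Sn K n).filter T).card : ℝ) * Real.log 2 ≤ 2 * vonMangoldt n := by
  have h1 := sum_VM_le (K := K) n
  rw [hfin, finsum_mem_eq_finite_toFinset_sum _ (NN_finite n)] at h1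
  refine le_trans ?_ (le_trans (Finset.sum_le_sum_of_subset_of_nonneg
    (Finset.filter_subset T (Sn K n)) fun 𝔞 _ _ => VM_nonneg 𝔞) (by exact_mod_cast h1))
  rw [← nsmul_eq_mul, ← Finset.sum_const]
  refine Finset.sum_le_sum fun 𝔭 h𝔭 => ?_
  obtain ⟨h2, h3⟩ := hT 𝔭 (Finset.mem_filter.1 h𝔭).2
  have h4 : Prime 𝔭 := prime_of_isPrime h3 h2
  have h5 := VM_pow h4 one_ne_zero
  rw [pow_one] at h5
  rw [h5]
  refine Real.log_le_log (by norm_num) ?_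
  have h6 : absNorm 𝔭 ≠ 0 := fun h => h3 (absNorm_eq_zero_iff.1 h)
  have h7 : absNorm 𝔭 ≠ 1 := fun h => h2.ne_top (absNorm_eq_one_iff.1 h)
  exact_mod_cast (show 2 ≤ absNorm 𝔭 by omega)

open scoped Classical in
/-- the exceptional primes are few -/
theorem exc_summ (hfin : Module.finrank ℚ K = 2) {θ : Ideal (𝓞 K) →*₀ ℂ} {N M : ℕ} (hN : 1 ≤ N)
    (hM : 1 ≤ M) (hθl : ∀ 𝔞, ‖θ 𝔞‖ ≤ 1)
    (hθ : ∀ p : ℕ, p.Prime → ¬ p ∣ M → ∀ 𝔭 ∈ Sn K p, θ 𝔭 ^ N = 1)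
    (hs : Summable (gg (rI K) (an θ) 0 0)) (T : Ideal (𝓞 K) → Prop)
    (hT : ∀ 𝔭, T 𝔭 → 𝔭.IsPrime ∧ 𝔭 ≠ ⊥)
    (hT1 : ∀ p : ℕ, p.Prime → ¬ p ∣ M → ∀ 𝔭 ∈ Sn K p, T 𝔭 → θ 𝔭 ≠ 1) :
    Summable (fun 𝔭 : Ideal (𝓞 K) => if T 𝔭 then 1 / (absNorm 𝔭 : ℝ) else 0) := by
  have hlog : 0 < Real.log 2 := Real.log_pos (by norm_num)
  refine summ_ideals _ (fun 𝔞 => by split_ifs <;> positivity) ?_
  obtain ⟨c, hc, hgap⟩ := root_gap N hN
  have hsn : ∀ n : ℕ, ∑ 𝔞 ∈ Sn K n, (if T 𝔞 then 1 / (absNorm 𝔞 : ℝ) else 0) =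
      (((Sn K n).filter T).card : ℝ) * (1 / (n : ℝ)) := by
    intro n
    rw [← Finset.sum_filter, Finset.sum_congr rfl (g := fun _ => 1 / (n : ℝ))]
    · rw [Finset.sum_const, nsmul_eq_mul]
    · intro 𝔞 h
      rw [mem_Sn.1 (Finset.mem_filter.1 h).1]
  have hnn : ∀ n : ℕ, 0 ≤ (((Sn K n).filter T).card : ℝ) * (1 / (n : ℝ)) := fun n => by positivity
  -- the primes
  have h1 : Summable (fun n : ℕ => if n.Prime then
      (((Sn K n).filter T).card : ℝ) * (1 / (n : ℝ)) else 0) := by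
    refine summ_of_prime hM (B := c⁻¹) (fun n => ?_) (fun n hn => if_neg hn) (fun p hp hpM => ?_) hs
    · split_ifs
      · exact hnn n
      · exact le_rfl
    · rw [if_pos hp, deficit _ _ hp]
      have h2 : (((Sn K p).filter T).card : ℝ) * c ≤
          ∑ 𝔭 ∈ Sn K p, (1 - (θ 𝔭 * (p : ℂ) ^ (-(((0 : ℝ) : ℂ) * Complex.I))).re) := by
        have h3 : ∀ 𝔭 : Ideal (𝓞 K), θ 𝔭 * (p : ℂ) ^ (-(((0 : ℝ) : ℂ) * Complex.I)) = θ 𝔭 := by
          intro 𝔭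
          simp
        simp only [h3]
        refine le_trans ?_ (Finset.sum_le_sum_of_subset_of_nonneg
          (Finset.filter_subset T (Sn K p)) fun 𝔭 _ _ => ?_)
        · rw [← nsmul_eq_mul, ← Finset.sum_const]
          refine Finset.sum_le_sum fun 𝔭 h𝔭 => ?_
          obtain ⟨h4, h5⟩ := Finset.mem_filter.1 h𝔭
          exact hgap _ (hθ p hp hpM 𝔭 h4) (hT1 p hp hpM 𝔭 h4 h5)
        · have := (Complex.re_le_norm (θ 𝔭)).trans (hθl 𝔭)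
          linarith
      have h3 : (p : ℝ) ^ (-(1 : ℝ)) = 1 / (p : ℝ) := by rw [Real.rpow_neg_one, one_div]
      rw [h3]
      have hp0 : (0 : ℝ) < p := by exact_mod_cast hp.pos
      rw [← mul_assoc, mul_comm c⁻¹, mul_assoc, mul_comm (((Sn K p).filter T).card : ℝ)]
      refine mul_le_mul_of_nonneg_left ?_ (by positivity)
      rw [← div_eq_inv_mul, le_div_iff₀ hc]
      exact h2
  -- the other norms
  have h2 : Summable (fun n : ℕ => if n.Prime then 0 else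
      (((Sn K n).filter T).card : ℝ) * (1 / (n : ℝ))) := by
    refine Summable.of_nonneg_of_le (fun n => ?_) (fun n => ?_)
      (np_summ.mul_left (2 / Real.log 2))
    · split_ifs
      · exact le_rfl
      · exact hnn n
    · by_cases hp : n.Prime
      · simp [hp]
      · rw [if_neg hp, if_neg hp]
        have h3 := card_primes hfin T hT n
        have h4 : (((Sn K n).filter T).card : ℝ) ≤ 2 / Real.log 2 * vonMangoldt n := by
          rw [div_mul_eq_mul_div, le_div_iff₀ hlog]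
          exact h3
        calc (((Sn K n).filter T).card : ℝ) * (1 / (n : ℝ)) ≤
            2 / Real.log 2 * vonMangoldt n * (1 / (n : ℝ)) :=
              mul_le_mul_of_nonneg_right h4 (by positivity)
          _ = _ := by ring
  refine (h1.add h2).congr fun n => ?_
  rw [hsn]
  split_ifs
  · rw [add_zero]
  · rw [zero_add]

/-- the complex conjugate character -/
noncomputable def cjη (η : Ideal (𝓞 K) →*₀ ℂ) : Ideal (𝓞 K) →*₀ ℂ where
  toFun 𝔞 := (starRingEnd ℂ) (η 𝔞)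
  map_zero' := by rw [map_zero, map_zero]
  map_one' := by rw [map_one, map_one]
  map_mul' 𝔞 𝔟 := by rw [map_mul, map_mul]

lemma sg_zero (x : K) : sg (fun _ => 0) x = 1 := by
  unfold sg
  exact Finset.prod_eq_one fun w _ => pow_zero _

lemma mod_cj {𝔪 : Ideal (𝓞 K)} {η : Ideal (𝓞 K) →*₀ ℂ} (h : IsModChar 𝔪 (fun _ => 0) η) :
    IsModChar 𝔪 (fun _ => 0) (cjη η) where
  ne_bot := h.ne_bot
  ne_top := h.ne_top
  sig_le _ := Nat.zero_le _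
  cpx _ _ := rfl
  supp 𝔞 := by
    rw [← h.supp 𝔞]
    have h1 : cjη η 𝔞 = (starRingEnd ℂ) (η 𝔞) := rfl
    rw [h1, map_ne_zero (starRingEnd ℂ)]
  sig x hx hx1 := by
    have h1 : cjη η (Ideal.span {x}) = (starRingEnd ℂ) (η (Ideal.span {x})) := rfl
    rw [h1, h.sig x hx hx1, sg_zero, map_one]

/-- the product of the character and of the function -/
noncomputable def th (η : Ideal (𝓞 K) →*₀ ℂ) {N : ℕ} {F : Ideal (𝓞 K) → ℂ} (hF : CMI N F) :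
    Ideal (𝓞 K) →*₀ ℂ where
  toFun 𝔞 := η 𝔞 * F 𝔞
  map_zero' := by rw [map_zero, zero_mul]
  map_one' := by
    have h0 : (1 : Ideal (𝓞 K)) ≠ ⊥ := by
      rw [← Ideal.zero_eq_bot]
      exact one_ne_zero
    have h1 := hF.mul 1 1 h0 h0
    rw [mul_one] at h1
    have h2 : F 1 ≠ 0 := by
      intro h3
      have h4 := hF.pow 1 h0
      rw [h3, zero_pow (by have := hF.pos; omega)] at h4
      exact zero_ne_one h4
    have h3 : F 1 = 1 := by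
      have h4 : F 1 * F 1 = F 1 * 1 := by rw [← h1, mul_one]
      exact mul_left_cancel₀ h2 h4
    rw [h3, map_one, mul_one]
  map_mul' 𝔞 𝔟 := by
    by_cases h1 : 𝔞 = 0
    · rw [h1, zero_mul, map_zero, zero_mul, zero_mul]
    by_cases h2 : 𝔟 = 0
    · rw [h2, mul_zero, map_zero, zero_mul, mul_zero]
    rw [map_mul, hF.mul 𝔞 𝔟 (by rwa [← Ideal.zero_eq_bot]) (by rwa [← Ideal.zero_eq_bot])]
    ring

/-- not close to `n^{iy}` -/
theorem np_th (hfin : Module.finrank ℚ K = 2) {ρ C : ℝ} (hρ : 0 < ρ) (hr : Rm (rI K) ρ C)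
    {N : ℕ} {F : Ideal (𝓞 K) → ℂ} (hF : CMI N F) (hfar : FarI K F) {𝔪 : Ideal (𝓞 K)}
    {η : Ideal (𝓞 K) →*₀ ℂ} (h : IsModChar 𝔪 (fun _ => 0) η) (hη : ∀ 𝔞, ‖th η hF 𝔞‖ ≤ 1)
    {N₁ : ℕ} (hN₁ : 1 ≤ N₁) (hord : ∀ 𝔞, IsCoprime 𝔞 𝔪 → η 𝔞 ^ N₁ = 1) :
    NP (rI K) (an (th η hF)) := by
  classical
  intro y hsum
  have hM : 1 ≤ absNorm 𝔪 := Nat.pos_of_ne_zero fun h0 => h.ne_bot (absNorm_eq_zero_iff.1 h0)
  have hN : 1 ≤ N * N₁ := Nat.mul_pos hF.pos hN₁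
  have hne : ∀ p : ℕ, p.Prime → ∀ 𝔭 ∈ Sn K p, 𝔭 ≠ ⊥ := by
    intro p hp 𝔭 h𝔭
    rw [mem_Sn] at h𝔭
    rintro rfl
    rw [absNorm_bot] at h𝔭
    exact hp.ne_zero h𝔭.symm
  have hθ : ∀ p : ℕ, p.Prime → ¬ p ∣ absNorm 𝔪 → ∀ 𝔭 ∈ Sn K p, th η hF 𝔭 ^ (N * N₁) = 1 := by
    intro p hp hpM 𝔭 h𝔭
    show (η 𝔭 * F 𝔭) ^ (N * N₁) = 1
    rw [mul_pow, pow_mul (F 𝔭), hF.pow 𝔭 (hne p hp 𝔭 h𝔭), one_pow, mul_one, mul_comm N,
      pow_mul, hord 𝔭 (cop_of_prime hp hpM h𝔭), one_pow]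
  by_cases hy : y = 0
  · subst hy
    refine hfar 𝔪 (cjη η) (mod_cj h) ?_
    have key := exc_summ hfin hN hM hη hθ hsum
      (fun 𝔭 => 𝔭.IsPrime ∧ 𝔭 ≠ ⊥ ∧ F 𝔭 ≠ cjη η 𝔭) (fun 𝔭 h𝔭 => ⟨h𝔭.1, h𝔭.2.1⟩)
      (fun p hp hpM 𝔭 h𝔭 hT heq => by
        apply hT.2.2
        have h1 : ‖η 𝔭‖ = 1 :=
          Complex.norm_eq_one_of_pow_eq_one (hord 𝔭 (cop_of_prime hp hpM h𝔭)) (by omega)
        have h2 : η 𝔭 * F 𝔭 = 1 := heq
        have h3 : (starRingEnd ℂ) (η 𝔭) * η 𝔭 = 1 := by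
          rw [← Complex.normSq_eq_conj_mul_self, Complex.normSq_eq_norm_sq, h1]
          norm_num
        show F 𝔭 = (starRingEnd ℂ) (η 𝔭)
        calc F 𝔭 = ((starRingEnd ℂ) (η 𝔭) * η 𝔭) * F 𝔭 := by rw [h3, one_mul]
          _ = (starRingEnd ℂ) (η 𝔭) * (η 𝔭 * F 𝔭) := by ring
          _ = _ := by rw [h2, mul_one])
    refine key.congr fun 𝔭 => ?_
    by_cases hc : 𝔭.IsPrime ∧ 𝔭 ≠ ⊥ ∧ F 𝔭 ≠ cjη η 𝔭
    · rw [if_pos hc, if_pos hc]
    · rw [if_neg hc, if_neg hc]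
  · obtain ⟨L₁, h₁⟩ := hs_one hfin
    have hy' : ((N * N₁ : ℕ) : ℝ) * y ≠ 0 :=
      mul_ne_zero (by exact_mod_cast (by omega : N * N₁ ≠ 0)) hy
    refine h₁.not_close h₁ hr hρ (((N * N₁ : ℕ) : ℝ) * y) (lim_r hr hy') ?_
    refine summ_of_prime hM (fun n => gg_nonneg h₁.le _ _ n)
      (fun n hn => ?_) (fun p hp hpM => gg_pow hN hθ y hp hpM) hsum
    unfold gg
    exact if_neg hn

theorem hm (ha : S_HA) : S_HM := by
  classical
  intro K _ _ _ hfin N F hF hfar 𝔪 η h ε hε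
  obtain ⟨ρ, C, hρ, hr⟩ := ha K hfin
  obtain ⟨L₁, h₁⟩ := hs_one hfin
  obtain ⟨N₁, hN₁, hord⟩ := order h
  have hη : ∀ 𝔞, ‖th η hF 𝔞‖ ≤ 1 := by
    intro 𝔞
    show ‖η 𝔞 * F 𝔞‖ ≤ 1
    by_cases h0 : IsCoprime 𝔞 𝔪
    · have h2 : 𝔞 ≠ ⊥ := by
        rintro rfl
        have h3 := hord ⊥ h0
        rw [← Ideal.zero_eq_bot, map_zero, zero_pow (by omega)] at h3
        exact zero_ne_one h3
      rw [norm_mul, Complex.norm_eq_one_of_pow_eq_one (hord 𝔞 h0) (by omega),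
        Complex.norm_eq_one_of_pow_eq_one (hF.pow 𝔞 h2) (by have := hF.pos; omega), mul_one]
    · have h3 : η 𝔞 = 0 := by
        by_contra h4
        exact h0 ((h.supp 𝔞).1 h4)
      rw [h3, zero_mul, norm_zero]
      exact zero_le_one
  have key := (hs_th hfin (th η hF) hη).halasz h₁ hr (np_th hfin hρ hr hF hfar h hη hN₁ hord)
  have e1 := key.eventually (Metric.ball_mem_nhds 0 hε)
  obtain ⟨n₁, hn₁⟩ := Filter.eventually_atTop.1 e1
  refine ⟨(n₁ : ℝ) + 1, fun X hX => ?_⟩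
  have hX1 : (1 : ℝ) ≤ X := by linarith [(Nat.cast_nonneg n₁ : (0 : ℝ) ≤ n₁)]
  have hfl : n₁ ≤ ⌊X⌋₊ := Nat.le_floor (by linarith)
  have hfl1 : 1 ≤ ⌊X⌋₊ := Nat.le_floor (by exact_mod_cast hX1)
  have hfl0 : (0 : ℝ) < (⌊X⌋₊ : ℝ) := by exact_mod_cast hfl1
  have h3 := hn₁ ⌊X⌋₊ hfl
  rw [dist_zero_right, norm_div, Complex.norm_natCast, div_lt_iff₀ hfl0] at h3
  have h4 : ∑ 𝔞 ∈ IX K X, η 𝔞 * F 𝔞 = ∑ n ∈ Finset.Icc 1 ⌊X⌋₊, an (th η hF) n := by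
    have hmem : ∀ 𝔞 : Ideal (𝓞 K), 𝔞 ∈ IX K X ↔ absNorm 𝔞 ≤ ⌊X⌋₊ ∧ 𝔞 ≠ ⊥ := by
      intro 𝔞
      unfold IX
      rw [Finset.mem_filter, Set.Finite.mem_toFinset]
      rfl
    have hm : ∀ 𝔞 ∈ IX K X, absNorm 𝔞 ∈ Finset.Icc 1 ⌊X⌋₊ := by
      intro 𝔞 h
      rw [hmem] at h
      rw [Finset.mem_Icc]
      exact ⟨Nat.pos_of_ne_zero fun h0 => h.2 (absNorm_eq_zero_iff.1 h0), h.1⟩
    rw [← Finset.sum_fiberwise_of_maps_to hm]
    refine Finset.sum_congr rfl fun n hn => ?_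
    rw [Finset.mem_Icc] at hn
    have h5 : (IX K X).filter (fun 𝔞 => absNorm 𝔞 = n) = Sn K n := by
      ext 𝔞
      rw [Finset.mem_filter, mem_Sn, hmem]
      constructor
      · rintro ⟨-, h⟩
        exact h
      · intro h
        refine ⟨⟨by omega, ?_⟩, h⟩
        rintro rfl
        rw [absNorm_bot] at h
        omega
    rw [h5]
    rfl
  rw [h4]
  refine h3.le.trans ?_
  exact mul_le_mul_of_nonneg_left (Nat.floor_le (by linarith)) hε.le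

end Pool.Agent.N712.LB
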